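import Pool.Agent.W998.LinWit

set_option autoImplicit false

/-!
# The linear languages are not G-principal
-/

namespace Pool.Agent.Results.MP_773080_lc.LinNotGPrincipal

open Pool.Agent.W998
open Pool.Agent.Results.MP_773080_lc.RocNotGPrincipal (Family AGsm G GPrincipal G_iff rep rep_zero
  rep_succ rep_succ' rep_add)

/-- `Lin`, the family of the linear languages: the languages generated by context-free grammars in
which the right-hand side of every rule is `u B v` or `u` with words `u`, `v` and a nonterminal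
`B`. -/
def Lin : Family := fun X _ L =>
  ∃ g : ContextFreeGrammar X, Pool.Agent.H540R2.IsLinear g ∧ g.language = L

/-- The automaton of a grammar, on the finite set of states. -/
def sub {Y : Type} (g : ContextFreeGrammar Y) : TwoHead Y (States g) where
  init := ⟨[Symbol.nonterminal g.initial], Or.inl rfl⟩
  lft := fun q y p => (aut g).lft q.1 y p.1
  rgt := fun q y p => (aut g).rgt q.1 y p.1
  eps := fun q p => (aut g).eps q.1 p.1
  fin := fun q => (aut g).fin q.1

/-- A linear language is the language of an automaton with finitely many states. -/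
theorem exists_aut {Y : Type} (g : ContextFreeGrammar Y) (hg : Pool.Agent.H540R2.IsLinear g) :
    ∃ (V : Type) (_ : Finite V) (A : TwoHead Y V), A.language = g.language := by
  have hS : ∀ {q p : List (Symbol Y g.NT)} {α β : List Y}, (aut g).Run q α β p →
      q ∈ States g → p ∈ States g := fun h hq => aut_states g h hq
  refine ⟨States g, states_finite g, sub g, ?_⟩
  rw [← language_aut g hg]
  ext w
  constructor
  · rintro ⟨α, β, f, hf, h, rfl⟩
    refine ⟨α, β, f.1, hf, ?_, rfl⟩
    have : ∀ {q p : States g} {α β : List Y}, (sub g).Run q α β p →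
        (aut g).Run q.1 α β p.1 := by
      intro q p α β h
      induction h with
      | nil q => exact TwoHead.Run.nil _
      | left h _ ih => exact TwoHead.Run.left h ih
      | right h _ ih => exact TwoHead.Run.right h ih
      | eps h _ ih => exact TwoHead.Run.eps h ih
    exact this h
  · rintro ⟨α, β, f, hf, h, rfl⟩
    have hi : (aut g).init ∈ States g := Or.inl rfl
    refine ⟨α, β, ⟨f, hS h hi⟩, hf, ?_, rfl⟩
    have key : ∀ {q p : List (Symbol Y g.NT)} {α β : List Y} (h : (aut g).Run q α β p)
        (hq : q ∈ States g), (sub g).Run ⟨q, hq⟩ α β ⟨p, hS h hq⟩ := by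
      intro q p α β h
      induction h with
      | nil q => intro hq; exact TwoHead.Run.nil _
      | @left q p r y α β h h' ih =>
        intro hq
        have hp : p ∈ States g := hS (TwoHead.Run.left h (TwoHead.Run.nil p)) hq
        exact TwoHead.Run.left (A := sub g) (p := ⟨p, hp⟩) h (ih hp)
      | @right q p r y α β h h' ih =>
        intro hq
        have hp : p ∈ States g := hS (TwoHead.Run.right h (TwoHead.Run.nil p)) hq
        exact TwoHead.Run.right (A := sub g) (p := ⟨p, hp⟩) h (ih hp)
      | @eps q p r α β h h' ih =>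
        intro hq
        have hp : p ∈ States g := hS (TwoHead.Run.eps h (TwoHead.Run.nil p)) hq
        exact TwoHead.Run.eps (A := sub g) (p := ⟨p, hp⟩) h (ih hp)
    exact key h hi

theorem lin_K (m : ℕ) : Lin (Fin m ⊕ Fin 3) (K m) := by
  obtain ⟨g, h1, h2⟩ := exists_gram (autK m)
  exact ⟨g, h1, by rw [h2, language_autK]⟩

theorem map_rep {X Y : Type} (f : X → Y) (n : ℕ) (z : List X) :
    (rep n z).map f = rep n (z.map f) := by
  induction n with
  | zero => rfl
  | succ n ih => rw [rep_succ, rep_succ, List.map_append, ih]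

theorem mem_rep {X : Type} {n : ℕ} {z : List X} {a : X} (h : a ∈ rep n z) : a ∈ z := by
  induction n with
  | zero => simp at h
  | succ n ih =>
    rw [rep_succ] at h
    rcases List.mem_append.1 h with h | h
    · exact h
    · exact ih h

/-- If `L` is accepted by an automaton with `s` states then `K (s + 2)` is not in `G(L)`. -/
theorem not_G {Y V : Type} [Finite Y] [Finite V] (A : TwoHead Y V) (m : ℕ)
    (hm : Nat.card V + 2 ≤ m) : ¬ G A.language (Fin m ⊕ Fin 3) (K m) := by
  intro hG
  obtain ⟨M, hM⟩ := G_iff _ _ hG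
  have := M.finState
  -- the recurrent state
  obtain ⟨x0, hx0⟩ := rec_all (step := fun q (u : List (Fin m)) => M.run q (u.map Sum.inl))
    (fun q => rfl) (fun q u v => by simp only [List.map_append]; exact run_append M q _ _) M.init m
  obtain ⟨s, hs⟩ : ∃ s, s = M.run M.init (x0.map Sum.inl) := ⟨_, rfl⟩
  have hz : ∀ i : ℕ, ∃ z : List (Fin m), i ≤ m → ((∀ a ∈ z, i ≤ a.val) ∧
      (∀ a : Fin m, i ≤ a.val → a ∈ z) ∧ M.run s (z.map Sum.inl) = s) := by
    intro i
    by_cases hi : i ≤ m
    · obtain ⟨z, h1, h2, h3⟩ := exists_loop (hx0 i hi)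
      exact ⟨z, fun _ => ⟨h1, h2, by rw [hs]; exact h3⟩⟩
    · exact ⟨[], fun h => absurd h hi⟩
  choose z hz using hz
  -- the shape of the outputs
  obtain ⟨N, hN, B, γ, D, F, hshape⟩ := gsm_shape M (Sum.inr 0) (Sum.inr 1) (Sum.inr 2) s
  have hmain : ∀ x : List (Fin m), M.run M.init (x.map Sum.inl) = s → ∀ k l n,
      (k = l ∧ Good n x) ↔
        F n ∧ M.output M.init (x.map Sum.inl) ++ (B k ++ (rep l γ ++ D n)) ∈ A.language := by
    intro x hx k l n
    rw [← hshape _ hx k l n A.language, hM, mem_K]
    refine and_congr_left fun _ => ⟨fun h => by rw [h], fun h => ?_⟩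
    have := Nat.eq_of_mul_eq_mul_left hN h
    omega
  -- the last occurrence of the letter `i` in `z i`
  have hlast : ∀ (i : ℕ) (hi : i < m), ∃ p t : List (Fin m), z i = p ++ ⟨i, hi⟩ :: t ∧
      (⟨i, hi⟩ : Fin m) ∉ t := by
    intro i hi
    have h1 : (⟨i, hi⟩ : Fin m) ∈ (z i).reverse :=
      List.mem_reverse.2 ((hz i (by omega)).2.1 _ le_rfl)
    obtain ⟨as, bs, h2, h3⟩ := List.eq_append_cons_of_mem h1
    refine ⟨bs.reverse, as.reverse, ?_, by simpa using h3⟩
    have := congrArg List.reverse h2
    simpa using this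
  -- the runs
  have hrunz : ∀ i ≤ m, ∀ n, M.run s ((rep n (z i)).map Sum.inl) = s ∧
      M.output s ((rep n (z i)).map Sum.inl) = rep n (M.output s ((z i).map Sum.inl)) := by
    intro i hi n
    rw [map_rep]
    exact run_rep M (hz i hi).2.2 n
  have hcyc : ∀ (i : ℕ) (hi : i + 1 < m), ∃ (y : V) (p t : List (Fin m)) (a j M' k : ℕ)
      (ρ l ρ' : List Y) (f : V), z i = p ++ ⟨i, by omega⟩ :: t ∧ (⟨i, by omega⟩ : Fin m) ∉ t ∧
      F (x0.length + p.length + 1) ∧ 1 ≤ a ∧
      A.Run y (rep a (M.output s ((z (i + 1)).map Sum.inl))) [] y ∧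
      A.Run A.init (M.output M.init ((x0 ++ z i).map Sum.inl) ++
        rep j (M.output s ((z (i + 1)).map Sum.inl))) ρ y ∧ A.fin f ∧
      A.Run y (rep M' (M.output s ((z (i + 1)).map Sum.inl)) ++ l) ρ' f ∧
      l ++ (ρ' ++ ρ) = B k ++ (rep k γ ++ D (x0.length + p.length + 1)) := by
    intro i hi
    obtain ⟨p, t, h1, h2⟩ := hlast i (by omega)
    have hgood : ∀ n, Good (x0.length + p.length + 1) (x0 ++ z i ++ rep n (z (i + 1))) := by
      intro n
      refine ⟨x0 ++ p, t ++ rep n (z (i + 1)), ⟨i, by omega⟩, ?_, by rw [h1]; simp, by simp⟩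
      rw [List.mem_append, not_or]
      refine ⟨h2, fun h => ?_⟩
      have h3 := (hz (i + 1) (by omega)).1 _ (mem_rep h)
      simp at h3
    have hrun0 : M.run M.init ((x0 ++ z i).map Sum.inl) = s := by
      rw [List.map_append, run_append, ← hs]
      exact (hz i (by omega)).2.2
    have hrun1 : ∀ n, M.run M.init ((x0 ++ z i ++ rep n (z (i + 1))).map Sum.inl) = s := by
      intro n
      rw [List.map_append, run_append, hrun0]
      exact (hrunz (i + 1) (by omega) n).1
    have hout1 : ∀ n, M.output M.init ((x0 ++ z i ++ rep n (z (i + 1))).map Sum.inl) =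
        M.output M.init ((x0 ++ z i).map Sum.inl) ++
          rep n (M.output s ((z (i + 1)).map Sum.inl)) := by
      intro n
      rw [List.map_append, output_append, hrun0, (hrunz (i + 1) (by omega) n).2]
    obtain ⟨y, a, j, M', k, ρ, l, ρ', f, h3, h4, h5, h6, h7, h8⟩ := TwoHead.core (A := A)
      (P := M.output M.init ((x0 ++ z i).map Sum.inl)) (Z := M.output s ((z (i + 1)).map Sum.inl))
      (γ := γ) (δ := D (x0.length + p.length + 1)) (B := B) (by
        intro n k
        rw [← hout1]
        exact ((hmain _ (hrun1 n) k k _).1 ⟨rfl, hgood n⟩).2) (by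
        intro n k l hl h
        rw [← hout1] at h
        have h0 := ((hmain _ (hrun1 n) k k _).1 ⟨rfl, hgood n⟩).1
        have := ((hmain _ (hrun1 n) k l _).2 ⟨h0, h⟩).1
        omega)
    exact ⟨y, p, t, a, j, M', k, ρ, l, ρ', f, h1, h2,
      ((hmain _ (hrun1 0) 0 0 _).1 ⟨rfl, hgood 0⟩).1, h3, h4, h5, h6, h7, h8⟩
  choose y p t a j M' k ρ l ρ' f h1 h2 h3 h4 h5 h6 h7 h8 h9 using hcyc
  -- different letters give different states
  have hne : ∀ (i i' : ℕ) (hi : i + 1 < m) (hi' : i' + 1 < m), i < i' → y i hi ≠ y i' hi' := by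
    intro i i' hi hi' hlt he
    have hr1 := h6 i' hi'
    have hr2 := h5 i hi
    have hr3 := h8 i' hi'
    rw [← he] at hr1 hr3
    have hr := hr1.trans' (hr2.trans' hr3)
    obtain ⟨x, hx⟩ : ∃ x, x = x0 ++ z i' ++ rep (j i' hi') (z (i' + 1)) ++
      (rep (a i hi) (z (i + 1)) ++ rep (M' i' hi') (z (i' + 1))) := ⟨_, rfl⟩
    have hrun0 : M.run M.init ((x0 ++ z i').map Sum.inl) = s := by
      rw [List.map_append, run_append, ← hs]
      exact (hz i' (by omega)).2.2
    have hrun1 : M.run M.init ((x0 ++ z i' ++ rep (j i' hi') (z (i' + 1))).map Sum.inl) = s := by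
      rw [List.map_append, run_append, hrun0]
      exact (hrunz (i' + 1) (by omega) _).1
    have hrunx : M.run M.init (x.map Sum.inl) = s := by
      rw [hx, List.map_append, run_append, hrun1, List.map_append, run_append,
        (hrunz (i + 1) (by omega) _).1, (hrunz (i' + 1) (by omega) _).1]
    have houtx : M.output M.init (x.map Sum.inl) =
        (M.output M.init ((x0 ++ z i').map Sum.inl) ++
          rep (j i' hi') (M.output s ((z (i' + 1)).map Sum.inl))) ++
        (rep (a i hi) (M.output s ((z (i + 1)).map Sum.inl)) ++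
          rep (M' i' hi') (M.output s ((z (i' + 1)).map Sum.inl))) := by
      have e1 : M.output M.init ((x0 ++ z i' ++ rep (j i' hi') (z (i' + 1))).map Sum.inl) =
          M.output M.init ((x0 ++ z i').map Sum.inl) ++
          rep (j i' hi') (M.output s ((z (i' + 1)).map Sum.inl)) := by
        rw [List.map_append, output_append, hrun0, (hrunz (i' + 1) (by omega) _).2]
      have e2 : M.output s ((rep (a i hi) (z (i + 1)) ++
          rep (M' i' hi') (z (i' + 1))).map Sum.inl) =
          rep (a i hi) (M.output s ((z (i + 1)).map Sum.inl)) ++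
          rep (M' i' hi') (M.output s ((z (i' + 1)).map Sum.inl)) := by
        rw [List.map_append, output_append, (hrunz (i + 1) (by omega) _).1,
          (hrunz (i + 1) (by omega) _).2, (hrunz (i' + 1) (by omega) _).2]
      rw [hx, List.map_append, output_append, hrun1, e1, e2]
    have hmem := (hmain x hrunx (k i' hi') (k i' hi') (x0.length + (p i' hi').length + 1)).2
      ⟨h3 i' hi', _, _, _, h7 i' hi', hr, by rw [houtx, ← h9 i' hi']; simp⟩
    obtain ⟨_, u, v, b, hb, hxe, hlen⟩ := hmem
    rw [hx, h1 i' hi'] at hxe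
    have hxe' : (x0 ++ p i' hi') ++ (⟨i', by omega⟩ :: (t i' hi' ++
        (rep (j i' hi') (z (i' + 1)) ++ (rep (a i hi) (z (i + 1)) ++
          rep (M' i' hi') (z (i' + 1)))))) = u ++ b :: v := by
      rw [← hxe]
      simp
    obtain ⟨_, h10⟩ := List.append_inj hxe' (by rw [List.length_append]; omega)
    rw [List.cons.injEq] at h10
    obtain ⟨h11, h12⟩ := h10
    refine hb ?_
    rw [← h12, ← h11]
    refine List.mem_append_right _ (List.mem_append_right _ (List.mem_append_left _ ?_))
    obtain ⟨a', ha'⟩ : ∃ a', a i hi = a' + 1 := ⟨a i hi - 1, by have := h4 i hi; omega⟩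
    rw [ha', rep_succ]
    exact List.mem_append_left _ ((hz (i + 1) (by omega)).2.1 _ (by simp; omega))
  have hinj : Function.Injective (fun i : Fin (m - 1) => y i (by omega)) := by
    intro i i' h
    by_contra hcon
    rcases lt_or_gt_of_ne hcon with hlt | hlt
    · exact hne i i' (by omega) (by omega) hlt h
    · exact hne i' i (by omega) (by omega) hlt h.symm
  have := Nat.card_le_card_of_injective _ hinj
  rw [Nat.card_eq_fintype_card, Fintype.card_fin] at this
  omega

/-- **The family of the linear languages is not G-principal.** More precisely, for every linear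
language `L` there is a linear language outside `G(L)`; one can take the language `K m` for a
suitable `m`. -/
theorem result : ¬ GPrincipal Lin ∧
    ∀ (Y : Type) [Finite Y] (L : Language Y), Lin Y L →
      ∃ m : ℕ, Lin (Fin m ⊕ Fin 3) (K m) ∧ ¬ G L (Fin m ⊕ Fin 3) (K m) := by
  have h : ∀ (Y : Type) [Finite Y] (L : Language Y), Lin Y L →
      ∃ m : ℕ, Lin (Fin m ⊕ Fin 3) (K m) ∧ ¬ G L (Fin m ⊕ Fin 3) (K m) := by
    rintro Y _ L ⟨g, hg, rfl⟩
    obtain ⟨V, _, A, hA⟩ := exists_aut g hg
    rw [← hA]
    exact ⟨_, lin_K _, not_G A _ le_rfl⟩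
  refine ⟨?_, h⟩
  rintro ⟨Y, _, L, hL, h1⟩
  obtain ⟨m, h2, h3⟩ := h Y L hL
  exact h3 ((h1 _ _).1 h2)

end Pool.Agent.Results.MP_773080_lc.LinNotGPrincipal
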